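import Pool.Agent.Q54.EM.StmA

/-!
# Project EM, job VA3: the second moment of the generator sum
-/

set_option autoImplicit false

namespace Pool.Agent.Q84.EM

open Finset Pool.Agent.Q54.EM

/-- the pointwise bound of the diagonal term -/
lemma diag_pt {ι : Type} [Fintype ι] (p x f : ι → ℝ) (hp : ∀ i, 0 ≤ p i) (hs : ∑ i, p i = 1)
    (r : ℝ) :
    ∑ a, p a * (if x a < r then (∑ z, p z * (f z - f a) * (if x z < r then 1 else 0)) ^ 2 else 0) ≤
      ∑ a, ∑ z, (1 / 2 * (p a * p z * (f z - f a) ^ 2)) * (if max (x a) (x z) < r then 1 else 0) := by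
  classical
  set w : ι → ℝ := fun a => p a * (if x a < r then 1 else 0) with hw
  have hw0 : ∀ a, 0 ≤ w a := by
    intro a
    simp only [hw]
    split_ifs
    · simpa using hp a
    · simp
  have hw1 : ∀ a, w a ≤ p a := by
    intro a
    simp only [hw]
    split_ifs
    · simp
    · simpa using hp a
  set P := ∑ a, w a with hP
  set M := ∑ a, w a * f a with hM
  set Q := ∑ a, w a * f a ^ 2 with hQ
  have hP1 : P ≤ 1 := by
    rw [hP, ← hs]
    exact sum_le_sum fun a _ => hw1 a
  have hin : ∀ a, ∑ z, p z * (f z - f a) * (if x z < r then 1 else 0) = M - P * f a := by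
    intro a
    rw [hM, hP, sum_mul, ← sum_sub_distrib]
    refine sum_congr rfl fun z _ => ?_
    simp only [hw]
    ring
  have hLe : ∑ a, p a * (if x a < r then
      (∑ z, p z * (f z - f a) * (if x z < r then 1 else 0)) ^ 2 else 0) = P * (P * Q - M ^ 2) := by
    have h1 : ∀ a, p a * (if x a < r then
        (∑ z, p z * (f z - f a) * (if x z < r then 1 else 0)) ^ 2 else 0) =
        M ^ 2 * w a - 2 * M * P * (w a * f a) + P ^ 2 * (w a * f a ^ 2) := by
      intro a
      rw [hin a]
      simp only [hw]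
      split_ifs
      · ring
      · ring
    rw [sum_congr rfl fun a _ => h1 a, sum_add_distrib, sum_sub_distrib, ← mul_sum, ← mul_sum,
      ← mul_sum, ← hP, ← hM, ← hQ]
    ring
  have hRe : ∑ a, ∑ z, (1 / 2 * (p a * p z * (f z - f a) ^ 2)) *
      (if max (x a) (x z) < r then 1 else 0) = P * Q - M ^ 2 := by
    have h1 : ∀ a z, (1 / 2 * (p a * p z * (f z - f a) ^ 2)) *
        (if max (x a) (x z) < r then 1 else 0) =
        1 / 2 * (w a * (w z * f z ^ 2)) - (w a * f a) * (w z * f z) +
          1 / 2 * ((w a * f a ^ 2) * w z) := by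
      intro a z
      simp only [hw, max_lt_iff]
      by_cases ha : x a < r <;> by_cases hz : x z < r <;> simp [ha, hz]
      ring
    have h2 : ∀ a, ∑ z, (1 / 2 * (p a * p z * (f z - f a) ^ 2)) *
        (if max (x a) (x z) < r then 1 else 0) =
        1 / 2 * (w a * Q) - (w a * f a) * M + 1 / 2 * ((w a * f a ^ 2) * P) := by
      intro a
      rw [sum_congr rfl fun z _ => h1 a z, sum_add_distrib, sum_sub_distrib, ← mul_sum, ← mul_sum,
        ← mul_sum, ← mul_sum, ← mul_sum]
    rw [sum_congr rfl fun a _ => h2 a, sum_add_distrib, sum_sub_distrib, ← mul_sum, ← mul_sum,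
      ← sum_mul, ← sum_mul, ← sum_mul]
    rw [← hP, ← hM, ← hQ]
    ring
  have hR0 : 0 ≤ P * Q - M ^ 2 := by
    rw [← hRe]
    refine sum_nonneg fun a _ => sum_nonneg fun z _ => ?_
    refine mul_nonneg (mul_nonneg (by norm_num) (mul_nonneg (mul_nonneg (hp a) (hp z))
      (sq_nonneg _))) ?_
    split_ifs <;> norm_num
  rw [hLe, hRe]
  nlinarith

/-- a nonnegativity used twice -/
lemma term_nonneg (xa xb xy d fb fy r : ℝ) (h3 : xb ≤ xy → fy ≤ fb) :
    0 ≤ max d 0 * (fb - fy) *
      max ((if xa + xb < r then (1 : ℝ) else 0) - (if xa + xy < r then (1 : ℝ) else 0)) 0 := by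
  by_cases hb : xb ≤ xy
  · exact mul_nonneg (mul_nonneg (le_max_right _ _) (by linarith [h3 hb])) (le_max_right _ _)
  · have : max ((if xa + xb < r then (1 : ℝ) else 0) - (if xa + xy < r then (1 : ℝ) else 0)) 0
        = 0 := by
      apply max_eq_right
      push Not at hb
      by_cases c1 : xa + xb < r
      · have c2 : xa + xy < r := by linarith
        simp [c1, c2]
      · rw [if_neg c1]
        split_ifs <;> norm_num
    rw [this, mul_zero]

/-- the pointwise inequality between the symmetrised term and the terms of `CR` -/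
lemma quad_pt (xa xz xb xy fa fz fb fy r : ℝ) (h1 : xa ≤ xz → fz ≤ fa) (h2 : xz ≤ xa → fa ≤ fz)
    (h3 : xb ≤ xy → fy ≤ fb) :
    (fz - fa) * (fy - fb) * (if xa + xb < r then (1 : ℝ) else 0) *
      (if xz + xb < r then (1 : ℝ) else 0) *
      ((if xy + xa < r then (1 : ℝ) else 0) - (if xy + xz < r then (1 : ℝ) else 0)) ≤
    max (fz - fa) 0 * (fb - fy) *
      max ((if xa + xb < r then (1 : ℝ) else 0) - (if xa + xy < r then (1 : ℝ) else 0)) 0 +
    max (fa - fz) 0 * (fb - fy) *
      max ((if xz + xb < r then (1 : ℝ) else 0) - (if xz + xy < r then (1 : ℝ) else 0)) 0 := by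
  have hU1 := term_nonneg xa xb xy (fz - fa) fb fy r h3
  have hU2 := term_nonneg xz xb xy (fa - fz) fb fy r h3
  have hU := add_nonneg hU1 hU2
  by_cases c1 : xa + xb < r
  swap
  · refine le_trans (le_of_eq ?_) hU
    rw [if_neg c1]; ring
  by_cases c2 : xz + xb < r
  swap
  · refine le_trans (le_of_eq ?_) hU
    rw [if_neg c2]; ring
  by_cases c3 : xy + xz < r
  · by_cases c4 : xy + xa < r
    · refine le_trans (le_of_eq ?_) hU
      rw [if_pos c3, if_pos c4]; ring
    · -- `xz < xa`
      have hx : xz ≤ xa := by linarith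
      have hf := h2 hx
      have c5 : ¬ (xa + xy < r) := by linarith
      have hb : fy ≤ fb := h3 (by linarith)
      have e : max (fz - fa) 0 = fz - fa := max_eq_left (by linarith)
      have e2 : max ((1 : ℝ) - 0) 0 = 1 := by norm_num
      refine le_trans (le_of_eq ?_) (le_add_of_nonneg_right hU2)
      rw [if_pos c1, if_pos c2, if_pos c3, if_neg c4, if_neg c5, e, e2]
      ring
  · by_cases c4 : xy + xa < r
    · have hx : xa ≤ xz := by linarith
      have hf := h1 hx
      have c5 : ¬ (xz + xy < r) := by linarith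
      have hb : fy ≤ fb := h3 (by linarith)
      have e : max (fa - fz) 0 = fa - fz := max_eq_left (by linarith)
      have e2 : max ((1 : ℝ) - 0) 0 = 1 := by norm_num
      refine le_trans (le_of_eq ?_) (le_add_of_nonneg_left hU1)
      rw [if_pos c1, if_pos c2, if_neg c3, if_pos c4, if_neg c5, e, e2]
      ring
    · refine le_trans (le_of_eq ?_) hU
      rw [if_neg c3, if_neg c4]; ring

/-- the pointwise bound of the off-diagonal term -/
lemma offdiag_pt {ι : Type} [Fintype ι] (p x f : ι → ℝ) (hp : ∀ i, 0 ≤ p i)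
    (hf : ∀ i j, x i ≤ x j → f j ≤ f i) (K s : ℝ) :
    ∑ a, ∑ b, p a * p b * (if s + x a + x b < K then
      (∑ z, p z * (f z - f a) * (if x z < K - (s + x b) then 1 else 0)) *
      (∑ z, p z * (f z - f b) * (if x z < K - (s + x a) then 1 else 0)) else 0) ≤
    ∑ a, ∑ y, ∑ b, ∑ z, p a * p y * (p b * p z) * (max (f y - f a) 0 * (f b - f z)) *
      max ((if x a + x b < K - s then (1 : ℝ) else 0) -
        (if x a + x z < K - s then (1 : ℝ) else 0)) 0 := by
  classical
  set r := K - s with hr
  -- the four-fold sum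
  set F : ι → ι → ℝ := fun a z => ∑ b, ∑ y, p a * p z * (p b * p y) *
    ((f z - f a) * (f y - f b) * (if x a + x b < r then (1 : ℝ) else 0) *
      (if x z + x b < r then (1 : ℝ) else 0) * (if x y + x a < r then (1 : ℝ) else 0)) with hF
  set G : ι → ι → ℝ := fun a z => ∑ b, ∑ y, p a * p z * (p b * p y) *
    (max (f z - f a) 0 * (f b - f y)) *
      max ((if x a + x b < r then (1 : ℝ) else 0) -
        (if x a + x y < r then (1 : ℝ) else 0)) 0 with hG
  have hL : ∑ a, ∑ b, p a * p b * (if s + x a + x b < K then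
      (∑ z, p z * (f z - f a) * (if x z < K - (s + x b) then 1 else 0)) *
      (∑ z, p z * (f z - f b) * (if x z < K - (s + x a) then 1 else 0)) else 0) =
      ∑ a, ∑ z, F a z := by
    refine sum_congr rfl fun a _ => ?_
    simp only [hF]
    rw [sum_comm]
    refine sum_congr rfl fun b _ => ?_
    have e1 : (if s + x a + x b < K then
        (∑ z, p z * (f z - f a) * (if x z < K - (s + x b) then (1 : ℝ) else 0)) *
        (∑ z, p z * (f z - f b) * (if x z < K - (s + x a) then (1 : ℝ) else 0)) else 0) =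
        (if x a + x b < r then (1 : ℝ) else 0) *
        ((∑ z, p z * (f z - f a) * (if x z + x b < r then (1 : ℝ) else 0)) *
        (∑ y, p y * (f y - f b) * (if x y + x a < r then (1 : ℝ) else 0))) := by
      have c1 : (s + x a + x b < K) ↔ (x a + x b < r) := by
        rw [hr]; constructor <;> intro h <;> linarith
      have c2 : ∀ z, (x z < K - (s + x b)) ↔ (x z + x b < r) := by
        intro z; rw [hr]; constructor <;> intro h <;> linarith
      have c3 : ∀ z, (x z < K - (s + x a)) ↔ (x z + x a < r) := by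
        intro z; rw [hr]; constructor <;> intro h <;> linarith
      simp only [c1, c2, c3]
      split_ifs
      · rw [one_mul]
      · rw [zero_mul]
    rw [e1, sum_mul_sum, mul_sum, mul_sum]
    refine sum_congr rfl fun z _ => ?_
    rw [mul_sum, mul_sum]
    refine sum_congr rfl fun y _ => ?_
    ring
  have hR : ∑ a, ∑ y, ∑ b, ∑ z, p a * p y * (p b * p z) * (max (f y - f a) 0 * (f b - f z)) *
      max ((if x a + x b < K - s then (1 : ℝ) else 0) -
        (if x a + x z < K - s then (1 : ℝ) else 0)) 0 = ∑ a, ∑ z, G a z := by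
    rfl
  rw [hL]
  refine le_trans ?_ (le_of_eq hR.symm)
  have hFG : ∀ a z, F a z + F z a ≤ G a z + G z a := by
    intro a z
    simp only [hF, hG]
    rw [← sum_add_distrib, ← sum_add_distrib]
    refine sum_le_sum fun b _ => ?_
    rw [← sum_add_distrib, ← sum_add_distrib]
    refine sum_le_sum fun y _ => ?_
    have hq := quad_pt (x a) (x z) (x b) (x y) (f a) (f z) (f b) (f y) r (hf a z) (hf z a)
      (hf b y)
    have hw : 0 ≤ p a * p z * (p b * p y) :=
      mul_nonneg (mul_nonneg (hp a) (hp z)) (mul_nonneg (hp b) (hp y))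
    have := mul_le_mul_of_nonneg_left hq hw
    refine le_trans (le_of_eq ?_) (le_trans this (le_of_eq ?_))
    · ring
    · ring
  have hsF : ∑ a, ∑ z, F z a = ∑ a, ∑ z, F a z := sum_comm
  have hsG : ∑ a, ∑ z, G z a = ∑ a, ∑ z, G a z := sum_comm
  have hsum : ∑ a, ∑ z, (F a z + F z a) ≤ ∑ a, ∑ z, (G a z + G z a) :=
    sum_le_sum fun a _ => sum_le_sum fun z _ => hFG a z
  simp only [sum_add_distrib] at hsum
  rw [hsF, hsG] at hsum
  linarith

/-- `TE` respects sums -/
lemma TE_add {ι : Type} [Fintype ι] (p : ι → ℝ) (n : ℕ) (F G : (Fin n → ι) → ℝ) :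
    TE p n (fun v => F v + G v) = TE p n F + TE p n G := by
  unfold TE
  rw [← sum_add_distrib]
  exact sum_congr rfl fun v _ => by ring

/-- the expectation of the positive part of a difference of indicators -/
lemma EE_max {ι : Type} [Fintype ι] (hEEL : S_EEL) (p x : ι → ℝ) (n : ℕ) (hp : ∀ i, 0 ≤ p i)
    (hx : ∀ i, 0 ≤ x i) (K u v w : ℝ) :
    EE p x n (fun s => max ((if u + v < K - s then (1 : ℝ) else 0) -
        (if u + w < K - s then (1 : ℝ) else 0)) 0) =
      max (PR p x n (K - u - v) - PR p x n (K - u - w)) 0 := by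
  obtain ⟨hadd, hsub, hmul, hmono, hconst, hsum⟩ := hEEL ι p x n
  have hPR : ∀ t, PR p x n (K - u - t) = EE p x n (fun s => if u + t < K - s then 1 else 0) := by
    intro t
    unfold PR
    congr 1
    funext s
    have : (s < K - u - t) ↔ (u + t < K - s) := by constructor <;> intro h <;> linarith
    simp only [this]
  rcases le_total v w with h | h
  · have hle : PR p x n (K - u - w) ≤ PR p x n (K - u - v) := by
      rw [hPR, hPR]
      refine hmono hp hx _ _ fun s _ => ?_
      by_cases c : u + w < K - s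
      · have c2 : u + v < K - s := by linarith
        simp [c, c2]
      · rw [if_neg c]; split_ifs <;> norm_num
    rw [max_eq_left (by linarith), hPR, hPR, ← hsub]
    congr 1
    funext s
    apply max_eq_left
    by_cases c : u + w < K - s
    · have c2 : u + v < K - s := by linarith
      simp [c, c2]
    · rw [if_neg c]; split_ifs <;> norm_num
  · have hle : PR p x n (K - u - v) ≤ PR p x n (K - u - w) := by
      rw [hPR, hPR]
      refine hmono hp hx _ _ fun s _ => ?_
      by_cases c : u + v < K - s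
      · have c2 : u + w < K - s := by linarith
        simp [c, c2]
      · rw [if_neg c]; split_ifs <;> norm_num
    rw [max_eq_right (by linarith)]
    have : (fun s => max ((if u + v < K - s then (1 : ℝ) else 0) -
        (if u + w < K - s then (1 : ℝ) else 0)) 0) = fun s => (0 : ℝ) * (0 : ℝ) := by
      funext s
      rw [mul_zero]
      apply max_eq_right
      by_cases c : u + v < K - s
      · have c2 : u + w < K - s := by linarith
        simp [c, c2]
      · rw [if_neg c]; split_ifs <;> norm_num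
    rw [this, hmul 0 (fun _ => 0), zero_mul]

theorem va3 : S_ONE → S_TWO → S_EEL → S_VA3 := by
  intro hONE hTWO hEEL ι _ p x f k hk hL hf
  classical
  obtain ⟨n, rfl⟩ : ∃ n, k = n + 2 := ⟨k - 2, by omega⟩
  set K : ℝ := ((n + 2 : ℕ) : ℝ) with hK
  have hp : ∀ i, 0 ≤ p i := fun i => (hL.pos i).le
  set g1 : ι → ℝ → ℝ := fun a s => if x a < K - s then
    (∑ z, p z * (f z - f a) * (if x z < K - s then 1 else 0)) ^ 2 else 0 with hg1
  set g2 : ι → ι → ℝ → ℝ := fun a b s => if s + x a + x b < K then
      (∑ z, p z * (f z - f a) * (if x z < K - (s + x b) then 1 else 0)) *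
      (∑ z, p z * (f z - f b) * (if x z < K - (s + x a) then 1 else 0)) else 0 with hg2
  have hpt : ∀ v : Fin (n + 2) → ι, (if ∑ j, x (v j) < K then (
      ∑ i, ∑ z, p z * (f z - f (v i)) *
        (if x z < K - (∑ j, x (v j) - x (v i)) then 1 else 0)) ^ 2 else 0) =
      ∑ i, g1 (v i) (∑ j, x (v j) - x (v i)) +
      ∑ i, ∑ j ∈ univ.erase i, g2 (v i) (v j) (∑ m, x (v m) - x (v i) - x (v j)) := by
    intro v
    set S := ∑ j, x (v j) with hS
    simp only [hg1, hg2]
    by_cases hc : S < K
    · rw [if_pos hc, pow_two, sum_mul_sum, ← sum_add_distrib]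
      refine sum_congr rfl fun i _ => ?_
      rw [← add_sum_erase univ _ (mem_univ i)]
      have c1 : x (v i) < K - (S - x (v i)) := by linarith
      rw [if_pos c1, pow_two]
      congr 1
      refine sum_congr rfl fun j _ => ?_
      have c2 : S - x (v i) - x (v j) + x (v i) + x (v j) < K := by linarith
      rw [if_pos c2]
      have e1 : S - x (v i) - x (v j) + x (v j) = S - x (v i) := by ring
      have e2 : S - x (v i) - x (v j) + x (v i) = S - x (v j) := by ring
      rw [e1, e2]
    · rw [if_neg hc]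
      symm
      have z1 : ∀ i, ¬ (x (v i) < K - (S - x (v i))) := by
        intro i h; apply hc; linarith
      have z2 : ∀ i j, ¬ (S - x (v i) - x (v j) + x (v i) + x (v j) < K) := by
        intro i j h; apply hc; linarith
      simp only [z1, z2, if_false, sum_const_zero, add_zero]
  have hLHS : TE p (n + 2) (fun v => if ∑ j, x (v j) < K then (
      ∑ i, ∑ z, p z * (f z - f (v i)) *
        (if x z < K - (∑ j, x (v j) - x (v i)) then 1 else 0)) ^ 2 else 0) =
      K * EE p x (n + 1) (fun s => ∑ a, p a * g1 a s) +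
      K * (K - 1) * EE p x n (fun s => ∑ a, ∑ b, p a * p b * g2 a b s) := by
    rw [show (fun v : Fin (n + 2) → ι => if ∑ j, x (v j) < K then (
      ∑ i, ∑ z, p z * (f z - f (v i)) *
        (if x z < K - (∑ j, x (v j) - x (v i)) then 1 else 0)) ^ 2 else 0) = fun v =>
      (∑ i, g1 (v i) (∑ j, x (v j) - x (v i)) +
      ∑ i, ∑ j ∈ univ.erase i, g2 (v i) (v j) (∑ m, x (v m) - x (v i) - x (v j))) from
      funext hpt, TE_add]
    have o1 := hONE ι p x (n + 1) g1
    have o2 := hTWO ι p x n g2
    have k1 : ((n + 1 : ℕ) : ℝ) + 1 = K := by rw [hK]; push_cast; ring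
    have k2 : ((n : ℝ) + 2) * ((n : ℝ) + 1) = K * (K - 1) := by rw [hK]; push_cast; ring
    rw [k1] at o1
    rw [k2] at o2
    rw [← o1, ← o2]
  rw [hLHS]
  obtain ⟨hadd1, hsub1, hmul1, hmono1, hconst1, hsum1⟩ := hEEL ι p x (n + 1)
  obtain ⟨hadd0, hsub0, hmul0, hmono0, hconst0, hsum0⟩ := hEEL ι p x n
  have hK2 : (2 : ℝ) ≤ K := by rw [hK]; push_cast; linarith [(Nat.cast_nonneg n : (0 : ℝ) ≤ n)]
  have hD : EE p x (n + 1) (fun s => ∑ a, p a * g1 a s) ≤
      ∑ a, ∑ z, (1 / 2 * (p a * p z * (f z - f a) ^ 2)) * PR p x (n + 1) (K - max (x a) (x z)) := by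
    have h1 : EE p x (n + 1) (fun s => ∑ a, p a * g1 a s) ≤ EE p x (n + 1)
        (fun s => ∑ a, ∑ z, (1 / 2 * (p a * p z * (f z - f a) ^ 2)) *
          (if max (x a) (x z) < K - s then 1 else 0)) :=
      hmono1 hp hL.nn _ _ fun s _ => diag_pt p x f hp hL.sum (K - s)
    refine le_trans h1 (le_of_eq ?_)
    rw [hsum1 ι univ]
    refine sum_congr rfl fun a _ => ?_
    rw [hsum1 ι univ]
    refine sum_congr rfl fun z _ => ?_
    rw [hmul1]
    congr 1
    unfold PR
    congr 1
    funext s
    have : (max (x a) (x z) < K - s) ↔ (s < K - max (x a) (x z)) := by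
      constructor <;> intro h <;> linarith
    simp only [this]
  have hO : EE p x n (fun s => ∑ a, ∑ b, p a * p b * g2 a b s) ≤
      ∑ a, ∑ y, ∑ b, ∑ z, p a * p y * (p b * p z) * (max (f y - f a) 0 * (f b - f z)) *
        max (PR p x n (K - x a - x b) - PR p x n (K - x a - x z)) 0 := by
    have h1 : EE p x n (fun s => ∑ a, ∑ b, p a * p b * g2 a b s) ≤ EE p x n
        (fun s => ∑ a, ∑ y, ∑ b, ∑ z, p a * p y * (p b * p z) *
          (max (f y - f a) 0 * (f b - f z)) *
          max ((if x a + x b < K - s then (1 : ℝ) else 0) -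
            (if x a + x z < K - s then (1 : ℝ) else 0)) 0) :=
      hmono0 hp hL.nn _ _ fun s _ => offdiag_pt p x f hp hf K s
    refine le_trans h1 (le_of_eq ?_)
    rw [hsum0 ι univ]
    refine sum_congr rfl fun a _ => ?_
    rw [hsum0 ι univ]
    refine sum_congr rfl fun y _ => ?_
    rw [hsum0 ι univ]
    refine sum_congr rfl fun b _ => ?_
    rw [hsum0 ι univ]
    refine sum_congr rfl fun z _ => ?_
    rw [hmul0, EE_max hEEL p x n hp hL.nn]
  have hPP : PP (n + 2) p x f = K * ∑ a, ∑ z, (1 / 2 * (p a * p z * (f z - f a) ^ 2)) *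
      PR p x (n + 1) (K - max (x a) (x z)) := by
    unfold PP
    rw [div_eq_mul_one_div, mul_assoc, mul_sum]
    congr 1
    refine sum_congr rfl fun a _ => ?_
    rw [mul_sum]
    refine sum_congr rfl fun z _ => ?_
    simp only [Nat.add_succ_sub_one]
    ring
  have hCR : CR (n + 2) p x f = K * (K - 1) * ∑ a, ∑ y, ∑ b, ∑ z, p a * p y * (p b * p z) *
      (max (f y - f a) 0 * (f b - f z)) *
        max (PR p x n (K - x a - x b) - PR p x n (K - x a - x z)) 0 := by
    unfold CR
    simp only [Nat.add_sub_cancel]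
    rfl
  rw [hPP, hCR]
  exact add_le_add (mul_le_mul_of_nonneg_left hD (by linarith))
    (mul_le_mul_of_nonneg_left hO (by nlinarith))

end Pool.Agent.Q84.EM
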